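import Pool.Agent.Helper31.LQ.Goals

/-!
Packet LQ-Q0P of project LQ (MP_6fb600_gt).
-/

open scoped Matrix

noncomputable section

namespace Pool.Agent.Helper49.LQ

open Pool.Agent.Helper31.LQ

theorem q0_posDef (n : ℕ) : (Q0 n).PosDef := by
  have h1 : (1 : Matrix (Fin n) (Fin n) ℝ).PosDef := Matrix.PosDef.one
  have h2 : (Matrix.vecMulVec (fun _ : Fin n => (1 : ℝ)) (star fun _ : Fin n => (1 : ℝ))).PosSemidef :=
    Matrix.posSemidef_vecMulVec_self_star _
  have h3 : Q0 n = 1 + Matrix.vecMulVec (fun _ : Fin n => (1 : ℝ))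
      (star fun _ : Fin n => (1 : ℝ)) := by
    unfold Q0
    congr 1
    ext i j
    simp [Matrix.vecMulVec_apply]
  rw [h3]
  exact h1.add_posSemidef h2

theorem ver_castSucc (n : ℕ) (k l : Fin n) : ver (n := n) k.castSucc l = if l = k then 1 else 0 := by
  have h1 : (Fin.last n) ≠ k.castSucc := (Fin.castSucc_lt_last k).ne'
  simp only [ver, pr, Pi.single_apply, Fin.castSucc_inj, h1, if_false, sub_zero]

theorem ver_last (n : ℕ) (l : Fin n) : ver (n := n) (Fin.last n) l = -1 := by
  have h1 : l.castSucc ≠ Fin.last n := (Fin.castSucc_lt_last l).ne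
  simp only [ver, pr, Pi.single_apply, h1, if_false, if_true, zero_sub]

theorem gQ0P : Q0P := by
  intro n d
  refine ⟨q0_posDef n, Matrix.PosDef.one, ?_⟩
  intro Y a b
  rw [Fin.sum_univ_castSucc]
  have h1 : ∀ (k : Fin n) (c : Fin d), yv Y k.castSucc c = Y k c := by
    intro k c
    simp only [yv, lin, ver_castSucc, ite_mul, one_mul, zero_mul]
    rw [Finset.sum_ite_eq' Finset.univ k (fun l => Y l c)]
    simp
  have h2 : ∀ (c : Fin d), yv Y (Fin.last n) c = -∑ l, Y l c := by
    intro c
    simp only [yv, lin, ver_last, neg_mul, one_mul, Finset.sum_neg_distrib]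
  simp only [h1, h2, neg_mul_neg]
  have h3 : grm (Q0 n) Y a b = ∑ l, ∑ m, (Y l a * (if l = m then 1 else 0) * Y m b +
      Y l a * Y m b) := by
    simp only [grm, Matrix.of_apply, Q0, Matrix.add_apply, Matrix.one_apply]
    refine Finset.sum_congr rfl fun l _ => Finset.sum_congr rfl fun m _ => ?_
    ring
  rw [h3]
  simp only [Finset.sum_add_distrib]
  congr 1
  · refine Finset.sum_congr rfl fun l _ => ?_
    simp only [mul_ite, mul_one, mul_zero, ite_mul, zero_mul]
    rw [Finset.sum_ite_eq Finset.univ l (fun m => Y l a * Y m b)]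
    simp
  · rw [Finset.sum_mul_sum]

end Pool.Agent.Helper49.LQ
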